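import Pool.Agent.P.MP_da365b_co.WFi

namespace Pool.Agent.Results.MP_da365b_co.Factorised

open Pool.Agent.P.MP_da365b_co

theorem result {G : Type*} [Group G] [Finite G] (hG : ¬ Group.IsSolvable G) (O H : Subgroup G)
    (hm : ∀ g : G, ∃ o ∈ O, ∃ x ∈ H, g = o * x) (hn : (O ⊓ H).Normal) (hO : Odd (H.relIndex O))
    (u : G) (hu : u ∈ H) (hu2 : orderOf u = 2) (hinv : ∀ o ∈ O, u * o * u * o ∈ O ⊓ H)
    (N : Subgroup H) [N.Normal] (hodd : Odd N.index) (hT : OddTower N)
    (h2 : ∃ M : Subgroup N, M.index = 2) : HasStarter G := by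
  by_contra h
  have hc := (SV.wfinal O H hm hn hO u hu hu2 hinv N hodd hT h2 h).1
  exact hG (Group.isSolvable_of_comm fun a b => hc.commGroup.mul_comm a b)

end Pool.Agent.Results.MP_da365b_co.Factorised
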