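import Pool.Agent.P.MP_da365b_co.ExSL

namespace Pool.Agent.Results.MP_da365b_co.SelfCentral

open Pool.Agent.P.MP_da365b_co

theorem result {G : Type*} [Group G] [Finite G]
    (h : (∃ n : ℕ, Nonempty (G ≃* Equiv.Perm (Fin n))) ∨
      (∃ n : ℕ, 4 ≤ n ∧ Nonempty (G ≃* alternatingGroup (Fin n))) ∨
      (∃ (K : Type) (_ : Field K), Finite K ∧
        (Nonempty (G ≃* Matrix.SpecialLinearGroup (Fin 2) K) ∨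
          Nonempty (G ≃* Matrix.ProjectiveSpecialLinearGroup (Fin 2) K))) ∨
      ∃ Y E F : Subgroup G, (∀ g, g * g ∈ Y) ∧ E ≤ F ∧ F ≤ Y ∧ (∀ e ∈ E, e * e = 1) ∧
        (∀ a ∈ F, ∀ e ∈ E, a * e = e * a) ∧ (∀ a ∈ F, a * a ∈ E) ∧
        (∀ a ∈ F, (∀ b ∈ F, a * b = b * a) → a ∈ E) ∧
        (∀ y ∈ Y, (∀ e ∈ E, y * e = e * y) → (∀ a ∈ F, y * a * y⁻¹ * a⁻¹ ∈ E) → y ∈ F) ∧
        (∀ y ∈ Y, (∀ e ∈ E, y * e = e * y) → ∀ e ∈ E, ∀ x : G,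
          (x * e * x⁻¹) * y * (x * e * x⁻¹) = y⁻¹ → y ∈ E)) :
    HasStarter G := by
  apply SC.starter
  rcases h with ⟨n, ⟨φ⟩⟩ | ⟨n, hn, ⟨φ⟩⟩ | ⟨K, _, _, ⟨⟨φ⟩⟩ | ⟨⟨φ⟩⟩⟩ | h
  · exact SC.of_equiv φ (sc_perm n)
  · exact SC.of_equiv φ (sc_alt n hn)
  · exact SC.of_equiv φ sc_sl.1
  · exact SC.of_equiv φ sc_sl.2
  · exact h

end Pool.Agent.Results.MP_da365b_co.SelfCentral
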