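import Pool.Agent.P.MP_da365b_co.VMain

namespace Pool.Agent.Results.MP_da365b_co.Solvable

open Pool.Agent.P.MP_da365b_co

theorem result {G : Type*} [Group G] [Finite G] [Group.IsSolvable G]
    (h2 : Nat.card G ≠ 1 → Even (Nat.card G))
    (h : ¬ HasStarter G) : IsCyclic G ∧ ∃ k : ℕ, Nat.card G = 2 ^ k := by
  by_cases h1 : Nat.card G = 1
  · have : Subsingleton G := (Nat.card_eq_one_iff_unique.mp h1).1
    exact ⟨inferInstance, 0, by simpa using h1⟩
  · exact SV.main (h2 h1) h

/-! Side theorems, not part of the result: the literal second question, and a control showing that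
`HasStarter` does fail for some groups of even order. -/

/-- The second question, word for word: a finite group of 2-power order without a starter is
cyclic. -/
theorem question_two {G : Type*} [Group G] [Finite G] (k : ℕ) (hk : Nat.card G = 2 ^ k)
    (h : ¬ HasStarter G) : IsCyclic G := by
  have : Fact (Nat.Prime 2) := ⟨Nat.prime_two⟩
  have hn : Group.IsNilpotent G := (IsPGroup.of_card hk).isNilpotent
  refine (result (fun h1 => ?_) h).1
  rw [hk] at h1 ⊢
  rcases k with _ | k
  · exact absurd rfl h1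
  · exact ⟨2 ^ k, by ring⟩

section Controls

open Classical

theorem short_iff {G : Type*} [CommGroup G] {e : G × G} :
    (∃ t, InvolFixes t e) ∧ e.1 ≠ e.2 ↔ orderOf (e.1 * e.2⁻¹) = 2 := by
  obtain ⟨x, y⟩ := e
  constructor
  · rintro ⟨⟨t, ht, h⟩, -⟩
    have ht1 : t ≠ 1 := by
      rintro rfl
      simp at ht
    rcases Sym2.eq_iff.mp h with ⟨h1, -⟩ | ⟨h1, -⟩
    · exact absurd (by simpa using h1) ht1
    · have h1' : x * t = y := h1
      have : x * y⁻¹ = t⁻¹ := by
        rw [← h1']
        simp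
      simpa [this] using ht
  · intro h
    have h2 : (x * y⁻¹) ^ 2 = 1 := by
      have := pow_orderOf_eq_one (x * y⁻¹)
      rwa [h] at this
    refine ⟨⟨(x * y⁻¹)⁻¹, (orderOf_inv _).trans h, Sym2.eq_iff.mpr (Or.inr ⟨by simp, ?_⟩)⟩, ?_⟩
    · have h3 : (x * y⁻¹)⁻¹ = x * y⁻¹ := by
        rw [inv_eq_iff_mul_eq_one, ← sq, h2]
      change y * (x * y⁻¹)⁻¹ = x
      rw [h3, mul_comm x, mul_inv_cancel_left]
    · intro hxy
      have hxy' : x = y := hxy
      subst hxy'
      simp at h

theorem transversal_sum {G : Type*} [Group G] [Finite G] {K H : Subgroup G} (hK : K.index = 2)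
    (hH : H ≤ K) (M : Multiset G)
    (hM : ∀ q : G ⧸ H, Multiset.countP (fun x : G => (x : G ⧸ H) = q) M = 1) :
    (M.map fun x => if x ∈ K then (1 : ℤ) else -1).sum = 0 := by
  have := Fintype.ofFinite (G ⧸ H)
  let w : G → ℤ := fun x => if x ∈ K then 1 else -1
  have hout : ∀ x : G, w (x : G ⧸ H).out = w x := by
    intro x
    obtain ⟨h, hh⟩ := QuotientGroup.mk_out_eq_mul H x
    simp only [w, hh, K.mul_mem_cancel_right (hH h.2)]
  have hmap : M.map (fun x : G => (x : G ⧸ H)) = Finset.univ.val := by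
    ext q
    rw [Multiset.count_map, Multiset.count_univ, ← Multiset.countP_eq_card_filter, ← hM q]
    exact Multiset.countP_congr rfl fun x _ => propext eq_comm
  have h1 : (M.map w).sum = ∑ q : G ⧸ H, w q.out := by
    rw [Finset.sum_eq_multiset_sum, ← hmap, Multiset.map_map]
    exact congrArg Multiset.sum (Multiset.map_congr rfl fun x _ => (hout x).symm)
  obtain ⟨g, hg⟩ : ∃ g, g ∉ K := by
    by_contra h
    have : K = ⊤ := eq_top_iff.mpr fun x _ => not_not.mp fun hx => h ⟨x, hx⟩
    simp [this] at hK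
  have h2 : ∀ q : G ⧸ H, w (g • q).out = -w q.out := by
    intro q
    induction q using QuotientGroup.induction_on with
    | H x =>
      rw [MulAction.Quotient.smul_coe, hout, hout]
      simp only [w, smul_eq_mul, Subgroup.mul_mem_iff_of_index_two hK, hg]
      by_cases hx : x ∈ K <;> simp [hx]
  have h3 := Equiv.sum_comp (MulAction.toPerm g) fun q : G ⧸ H => w q.out
  simp only [MulAction.toPerm_apply, h2, Finset.sum_neg_distrib] at h3
  change (M.map w).sum = 0
  omega

theorem transversal_card {G : Type*} [Group G] [Finite G] {H : Subgroup G} (M : Multiset G)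
    (hM : ∀ q : G ⧸ H, Multiset.countP (fun x : G => (x : G ⧸ H) = q) M = 1) :
    M.card = H.index := by
  have := Fintype.ofFinite (G ⧸ H)
  have hmap : M.map (fun x : G => (x : G ⧸ H)) = Finset.univ.val := by
    ext q
    rw [Multiset.count_map, Multiset.count_univ, ← Multiset.countP_eq_card_filter, ← hM q]
    exact Multiset.countP_congr rfl fun x _ => propext eq_comm
  rw [← Multiset.card_map (fun x : G => (x : G ⧸ H)), hmap, Subgroup.index, Nat.card_eq_fintype_card]
  rfl

theorem block_count {G : Type*} [CommGroup G] [Finite G] {k : ℕ} (hk : Nat.card G = 2 ^ k)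
    {K : Subgroup G} (hK : K.index = 2) (hprop : ∀ H : Subgroup G, H ≠ ⊤ → H ≤ K)
    (hinv : ∀ t : G, orderOf t = 2 → t ∈ K) (S : Finset (G × G)) (hS : ∀ e ∈ S, e.1 ≠ e.2)
    {H : Subgroup G} (hH : ∀ q : G ⧸ H,
      Multiset.countP (fun x : G => (x : G ⧸ H) = q) (∑ e ∈ S, edgeEnds e) = 1)
    (h1 : Multiset.countP (fun g => orderOf g = 2) (∑ e ∈ S, edgeDiffs e) ≤ 1) :
    (Multiset.countP (· ∈ K) (∑ e ∈ S, edgeDiffs e) : ZMod 4) =
      Multiset.countP (fun g => orderOf g = 2) (∑ e ∈ S, edgeDiffs e) := by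
  let s : G × G → ℕ := fun e => Multiset.countP (fun g => orderOf g = 2) (edgeDiffs e)
  let a : G × G → ℕ := fun e => Multiset.countP (· ∈ K) (edgeDiffs e)
  let w : G × G → ℤ := fun e => ((edgeEnds e).map fun x => if x ∈ K then (1 : ℤ) else -1).sum
  have hedge : ∀ e ∈ S, (s e = 1 ∧ a e = 1 ∧ (edgeEnds e).card = 1) ∨
      (s e = 0 ∧ (a e : ZMod 4) = (w e : ℤ) ∧ (edgeEnds e).card = 2) := by
    intro e he
    by_cases h : ∃ t, InvolFixes t e
    · have h2 := short_iff.mp ⟨h, hS e he⟩
      left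
      simp [s, a, edgeDiffs, edgeEnds, h, h2, hinv _ h2, Multiset.countP_cons_of_pos,
        ← Multiset.cons_zero]
    · have h2 : ¬ orderOf (e.1 * e.2⁻¹) = 2 := fun h2 => h (short_iff.mpr h2).1
      have h3 : ¬ orderOf (e.2 * e.1⁻¹) = 2 := fun h3 => h2 (by
        rw [← orderOf_inv]
        simpa using h3)
      right
      refine ⟨by simp [s, edgeDiffs, h, h2, h3, Multiset.countP_eq_zero], ?_,
        by simp [edgeEnds, h]⟩
      simp only [a, w, edgeDiffs, edgeEnds, h, if_false, Multiset.insert_eq_cons,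
        ← Multiset.cons_zero, Multiset.countP_cons, Multiset.map_cons, Multiset.sum_cons,
        Subgroup.mul_mem_iff_of_index_two hK, inv_mem_iff]
      by_cases hx : e.1 ∈ K <;> by_cases hy : e.2 ∈ K <;> simp [hx, hy]
      all_goals rfl
  have es : Multiset.countP (fun g => orderOf g = 2) (∑ e ∈ S, edgeDiffs e) = ∑ e ∈ S, s e :=
    map_sum (Multiset.countPAddMonoidHom fun g => orderOf g = 2) _ _
  have ea : Multiset.countP (· ∈ K) (∑ e ∈ S, edgeDiffs e) = ∑ e ∈ S, a e :=
    map_sum (Multiset.countPAddMonoidHom (· ∈ K)) _ _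
  have ec : H.index = ∑ e ∈ S, (edgeEnds e).card := by
    rw [← transversal_card _ hH]
    exact map_sum Multiset.cardHom _ _
  have esc : H.index + ∑ e ∈ S, s e = 2 * S.card := by
    rw [ec, ← Finset.sum_add_distrib, Finset.card_eq_sum_ones, Finset.mul_sum]
    refine Finset.sum_congr rfl fun e he => ?_
    rcases hedge e he with h | h <;> omega
  rw [es] at h1
  rw [es, ea]
  rcases Nat.le_one_iff_eq_zero_or_eq_one.mp h1 with h0 | h0
  · have hne : H ≠ ⊤ := by
      rintro rfl
      rw [Subgroup.index_top] at esc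
      omega
    have hw := transversal_sum hK (hprop H hne) _ hH
    have ew : ((∑ e ∈ S, edgeEnds e).map fun x => if x ∈ K then (1 : ℤ) else -1).sum =
        ∑ e ∈ S, w e :=
      map_sum (Multiset.sumAddMonoidHom.comp (Multiset.mapAddMonoidHom _)) _ _
    rw [h0, Nat.cast_sum, Finset.sum_congr rfl (g := fun e => ((w e : ℤ) : ZMod 4)) fun e he => ?_,
      ← Int.cast_sum, ← ew, hw]
    · simp
    · have := Finset.sum_eq_zero_iff.mp h0 e he
      rcases hedge e he with h | h
      · omega
      · exact h.2.1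
  · have hd : H.index ∣ 2 ^ k := hk ▸ H.index_dvd_card
    obtain ⟨j, -, hj⟩ := (Nat.dvd_prime_pow Nat.prime_two).mp hd
    have hj0 : j = 0 := by
      rcases j with _ | j
      · rfl
      · rw [pow_succ] at hj
        omega
    have hc : S.card = 1 := by
      rw [hj, hj0] at esc
      omega
    obtain ⟨e, rfl⟩ := Finset.card_eq_one.mp hc
    simp only [Finset.sum_singleton] at h0 ⊢
    rcases hedge e (Finset.mem_singleton_self e) with h | h
    · rw [h.1, h.2.1]
    · omega

/-- Control (Hartman and Rosa): a cyclic group of order `2 ^ k`, `k ≥ 3`, has no starter. -/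
theorem cyclic_none {G : Type*} [Group G] [Finite G] (hc : IsCyclic G) (k : ℕ)
    (hk : Nat.card G = 2 ^ k) (h3 : 3 ≤ k) : ¬ HasStarter G := by
  rintro ⟨m, S, hS, hcount, hH⟩
  let _ : CommGroup G := IsCyclic.commGroup
  have := Fintype.ofFinite G
  obtain ⟨j, rfl⟩ : ∃ j, k = j + 3 := ⟨k - 3, by omega⟩
  obtain ⟨K, hK, hsq⟩ : ∃ K : Subgroup G, K.index = 2 ∧ ∀ x, x ^ 2 ∈ K := by
    refine ⟨(powMonoidHom 2 : G →* G).range, ?_, fun x => ⟨x, rfl⟩⟩
    rw [IsCyclic.index_powMonoidHom_range, hk, pow_succ]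
    exact Nat.gcd_mul_left_left _ _
  obtain ⟨g, hg⟩ := IsCyclic.exists_monoid_generator (α := G)
  have hog : orderOf g = 2 ^ (j + 3) := by
    rw [← hk]
    exact orderOf_eq_card_of_forall_mem_powers hg
  have hprop : ∀ H : Subgroup G, H ≠ ⊤ → H ≤ K := by
    intro H hne x hx
    obtain ⟨n, rfl⟩ := hg x
    rcases Nat.even_or_odd' n with ⟨r, rfl | rfl⟩
    · have h1 := hsq (g ^ r)
      rwa [← pow_mul, mul_comm] at h1
    · refine absurd (eq_top_iff.mpr fun y _ => ?_) hne
      have h1 : g ∈ Subgroup.zpowers (g ^ (2 * r + 1)) := by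
        rw [mem_zpowers_pow_iff, hog]
        exact Nat.Coprime.pow_right _ (by simp)
      obtain ⟨n', rfl⟩ := hg y
      exact H.pow_mem (Subgroup.zpowers_le.mpr hx h1) n'
  have hinv : ∀ t : G, orderOf t = 2 → t ∈ K := by
    intro t ht
    refine hprop (Subgroup.zpowers t) (fun h => ?_) (Subgroup.mem_zpowers t)
    have h1 := Nat.card_zpowers t
    rw [h, Subgroup.card_top, hk, ht, pow_add] at h1
    omega
  have huniv : (∑ i, ∑ e ∈ S i, edgeDiffs e) = (Finset.univ.erase (1 : G)).val := by
    ext x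
    rw [Multiset.count_eq_of_nodup (Finset.nodup _), hcount x]
    simp only [Finset.mem_val, Finset.mem_erase, Finset.mem_univ, and_true, ite_not]
  have e1 : Multiset.countP (fun g => orderOf g = 2) (∑ i, ∑ e ∈ S i, edgeDiffs e) = 1 := by
    rw [huniv, Multiset.countP_eq_card_filter]
    have h1 := IsCyclic.card_orderOf_eq_totient (α := G) (d := 2) (by
      rw [← Nat.card_eq_fintype_card, hk, pow_succ]
      exact dvd_mul_left _ _)
    rw [Nat.totient_two] at h1
    rw [← h1]
    change ((Finset.univ.erase (1 : G)).filter fun g => orderOf g = 2).card = _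
    rw [Finset.filter_erase, Finset.erase_eq_of_notMem (by simp)]
  have e2 : Multiset.countP (· ∈ K) (∑ i, ∑ e ∈ S i, edgeDiffs e) + 1 = 2 ^ j * 4 := by
    rw [huniv, Multiset.countP_eq_card_filter]
    change ((Finset.univ.erase (1 : G)).filter (· ∈ K)).card + 1 = _
    rw [Finset.filter_erase, Finset.card_erase_add_one (by simp)]
    have h1 := K.card_mul_index
    rw [hK, hk, Nat.card_eq_fintype_card, Fintype.card_subtype, pow_add] at h1
    omega
  have f1 := map_sum (Multiset.countPAddMonoidHom fun g : G => orderOf g = 2)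
    (fun i => ∑ e ∈ S i, edgeDiffs e) Finset.univ
  have f2 := map_sum (Multiset.countPAddMonoidHom (· ∈ K))
    (fun i => ∑ e ∈ S i, edgeDiffs e) Finset.univ
  simp only [Multiset.coe_countPAddMonoidHom] at f1 f2
  have key : ((Multiset.countP (· ∈ K) (∑ i, ∑ e ∈ S i, edgeDiffs e) : ℕ) : ZMod 4) =
      (Multiset.countP (fun g => orderOf g = 2) (∑ i, ∑ e ∈ S i, edgeDiffs e) : ℕ) := by
    rw [f1, f2, Nat.cast_sum, Nat.cast_sum]
    refine Finset.sum_congr rfl fun i _ => ?_
    obtain ⟨H, hH1, -⟩ := hH i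
    refine block_count hk hK hprop hinv (S i) (hS i) hH1 ?_
    rw [← e1, f1]
    exact Finset.single_le_sum (f := fun i => Multiset.countP (fun g : G => orderOf g = 2)
      (∑ e ∈ S i, edgeDiffs e)) (fun _ _ => Nat.zero_le _) (Finset.mem_univ i)
  have e3 := congrArg (Nat.cast : ℕ → ZMod 4) e2
  rw [Nat.cast_add, key, e1, Nat.cast_mul] at e3
  have h4 : ((4 : ℕ) : ZMod 4) = 0 := by decide
  rw [h4, mul_zero] at e3
  revert e3
  decide

end Controls

end Pool.Agent.Results.MP_da365b_co.Solvable
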